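import Pool.Agent.Run7.h132.FJ.Virt

/-!
# Towers
-/

set_option autoImplicit false

namespace Pool.Agent.Run7.h132.FJ

open Pool.Agent.Y110.FJ
open Pool.Agent.R941.FJ (C_equiv C_le C_cyc mem_sup_normal)
open Pool.Agent.Y462.SS (Closed)

variable {C : ∀ (G : Type) [Group G], Prop}

/-- the admissible factors -/
def Adm (C : ∀ (G : Type) [Group G], Prop) (K : Type) [Group K] : Prop :=
  VirtProd K ∨ LocFin K ∨ AutIn C K

theorem virtProd_congr {K K' : Type} [Group K] [Group K'] (e : K ≃* K') (h : VirtProd K') :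
    VirtProd K := by
  obtain ⟨H, n, X, hX, f, hH, hfs, hinj⟩ := h
  let j : H.comap e.toMonoidHom →* H :=
    (e.toMonoidHom.comp (H.comap e.toMonoidHom).subtype).codRestrict H fun x => x.2
  refine ⟨H.comap e.toMonoidHom, n, X, hX, fun i => (f i).comp j, ⟨?_⟩, hfs, fun x hx => ?_⟩
  · rw [Subgroup.index_comap_of_surjective _ e.surjective]
    exact hH.index_ne_zero
  · have h1 := hinj (j x) hx
    have h2 : e (x : K) = 1 := congrArg Subtype.val h1
    exact Subtype.ext ((map_eq_one_iff e e.injective).1 h2)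

theorem autIn_congr (hC : Closed C) {K K' : Type} [Group K] [Group K'] (e : K ≃* K')
    (h : AutIn C K') : AutIn C K := by
  refine ⟨fun z hz => ?_, C_equiv hC (MulAut.congr e) h.2⟩
  have h1 := h.1 (e z) fun x => by
    have h2 := congrArg e (hz (e.symm x))
    rwa [map_mul, map_mul, e.apply_symm_apply] at h2
  exact (map_eq_one_iff e e.injective).1 h1

theorem adm_congr (hC : Closed C) {K K' : Type} [Group K] [Group K'] (e : K ≃* K')
    (h : Adm C K') : Adm C K := by
  rcases h with h | h | h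
  · exact Or.inl (virtProd_congr e h)
  · exact Or.inr (Or.inl (locFin_of_injective e.toMonoidHom e.injective h))
  · exact Or.inr (Or.inr (autIn_congr hC e h))

/-- extensions with admissible kernels -/
theorem adm_ext (hC : ClosedE C) (hF : Pool.Agent.R684.FP.FbC C) (hS : Solv C) {G : Type} [Group G]
    (N : Subgroup G) [N.Normal] (hN : Adm C N) (hQ : C (G ⧸ N)) : C G := by
  rcases hN with h | h | h
  · exact vp_ext hC hF hS N h hQ
  · exact lf_ext hC N h hQ
  · exact aut_ext hC N h hQ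

theorem adm_cyc (hC : ClosedE C) (hF : Pool.Agent.R684.FP.FbC C) (hS : Solv C) {G : Type} [Group G]
    (N : Subgroup G) [N.Normal] (hN : Adm C N) (g : G) : C ↥(N ⊔ Subgroup.zpowers g) := by
  refine adm_ext hC hF hS (N.subgroupOf (N ⊔ Subgroup.zpowers g))
    (adm_congr hC.base (Subgroup.subgroupOfEquivOfLe le_sup_left) hN)
    (Pool.Agent.R941.FJ.quot hC.base _ ?_)
  have h1 : (N ⊔ Subgroup.zpowers g).map (QuotientGroup.mk' N) =
      Subgroup.zpowers (QuotientGroup.mk' N g) := by
    rw [Subgroup.map_sup, MonoidHom.map_zpowers, QuotientGroup.map_mk'_self, bot_sup_eq]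
  rw [h1]
  exact C_cyc hC.base _

theorem tower_aux (hC : ClosedE C) (hF : Pool.Agent.R684.FP.FbC C) (hS : Solv C) {G : Type}
    [Group G] {N : Subgroup G} (h : Tower C N) :
    N.Normal ∧ ∀ g : G, C ↥(N ⊔ Subgroup.zpowers g) := by
  induction h with
  | bot =>
    refine ⟨inferInstance, fun g => ?_⟩
    rw [bot_sup_eq]
    exact C_cyc hC.base g
  | step M M' hM hM' hle _ hf ih =>
    refine ⟨hM', Pool.Agent.R941.FJ.step hC ih.2 hle fun g => ?_⟩
    have hn : (M'.map (QuotientGroup.mk' M)).Normal :=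
      Subgroup.Normal.map inferInstance _ (QuotientGroup.mk'_surjective M)
    rw [Subgroup.map_sup, MonoidHom.map_zpowers]
    exact adm_cyc hC hF hS _ hf _
  | union S hSn hdir _ ih =>
    have hne : Nonempty S := hSn.to_subtype
    have hnor : (sSup S).Normal := by
      refine ⟨fun n hn g => ?_⟩
      rw [Subgroup.mem_sSup_of_directedOn hSn hdir] at hn ⊢
      obtain ⟨K, hK, hnK⟩ := hn
      exact ⟨K, hK, (ih K hK).1.conj_mem n hnK g⟩
    refine ⟨hnor, fun g => ?_⟩
    refine Pool.Agent.Y430.SS.of_directed hC.base _ S (fun i j => ?_)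
      (fun K => (K.1 ⊔ Subgroup.zpowers g).subgroupOf (sSup S ⊔ Subgroup.zpowers g)) ?_ ?_ ?_
    · obtain ⟨k, hk, h1, h2⟩ := hdir i.1 i.2 j.1 j.2
      exact ⟨⟨k, hk⟩, h1, h2⟩
    · intro i j hij
      exact Subgroup.comap_mono (sup_le_sup_right hij _)
    · rintro ⟨x, hx⟩
      obtain ⟨a, ha, b, hb, hab⟩ := mem_sup_normal.1 hx
      rw [Subgroup.mem_sSup_of_directedOn hSn hdir] at ha
      obtain ⟨K, hK, haK⟩ := ha
      refine ⟨⟨K, hK⟩, ?_⟩
      rw [Subgroup.mem_subgroupOf]
      show x ∈ K ⊔ Subgroup.zpowers g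
      rw [← hab]
      exact mul_mem (Subgroup.mem_sup_left haK) (Subgroup.mem_sup_right hb)
    · intro i
      exact C_equiv hC.base
        (Subgroup.subgroupOfEquivOfLe (sup_le_sup_right (le_sSup i.2) _)) ((ih i.1 i.2).2 g)

/-- **towers** -/
theorem tower_ext (hC : ClosedE C) (hF : Pool.Agent.R684.FP.FbC C) (hS : Solv C) {G : Type}
    [Group G] (N : Subgroup G) [N.Normal] (h : Tower C N) (hQ : C (G ⧸ N)) : C G := by
  obtain ⟨-, h1⟩ := tower_aux hC hF hS h
  exact Pool.Agent.Y529.FJ.t_ext C hC G N (C_le hC.base le_sup_left (h1 1)) hQ fun g _ => h1 g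

end Pool.Agent.Run7.h132.FJ
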