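import Mathlib

/-!
# Free-by-solvable groups and their products: definitions
-/

set_option autoImplicit false

namespace Pool.Agent.Run7.h132.FJ

/-- `X` has a free normal subgroup (of any rank) with a solvable quotient -/
def FreeBySolvable (X : Type) [Group X] : Prop :=
  ∃ (K : Subgroup X) (_ : K.Normal), IsFreeGroup K ∧ Group.IsSolvable (X ⧸ K)

/-- a subgroup of finite index of `N` embeds in a finite direct product of free-by-solvable groups -/
def VirtProd (N : Type) [Group N] : Prop :=
  ∃ (H : Subgroup N) (n : ℕ) (X : Fin n → Type) (_ : ∀ i, Group (X i)) (f : ∀ i, H →* X i),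
    H.FiniteIndex ∧ (∀ i, FreeBySolvable (X i)) ∧ ∀ h : H, (∀ i, f i h = 1) → h = 1

/-- `N` is locally finite -/
def LocFin (N : Type) [Group N] : Prop := ∀ s : Finset N, Finite (Subgroup.closure (s : Set N))

/-- `N` has a trivial centre, and its group of automorphisms is in the class `C` -/
def AutIn (C : ∀ (G : Type) [Group G], Prop) (N : Type) [Group N] : Prop :=
  (∀ z : N, (∀ x : N, z * x = x * z) → z = 1) ∧ C (MulAut N)

/-- `N` has an ascending series of normal subgroups of `G` with the factors above: it is obtained from
the trivial subgroup by steps `M ≤ M'` and by unions of directed families -/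
inductive Tower (C : ∀ (G : Type) [Group G], Prop) {G : Type} [Group G] : Subgroup G → Prop
  | bot : Tower C ⊥
  | step (M M' : Subgroup G) (hM : M.Normal) (hM' : M'.Normal) (hle : M ≤ M') (h : Tower C M)
      (hf : VirtProd ↥(M'.map (QuotientGroup.mk' M)) ∨ LocFin ↥(M'.map (QuotientGroup.mk' M)) ∨
        AutIn C ↥(M'.map (QuotientGroup.mk' M))) : Tower C M'
  | union (S : Set (Subgroup G)) (hS : S.Nonempty) (hd : DirectedOn (· ≤ ·) S)
      (h : ∀ M ∈ S, Tower C M) : Tower C (sSup S)

end Pool.Agent.Run7.h132.FJ
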