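import Pool.Agent.R629.FreeCent

/-!
# Automorphisms of subgroups of direct products of free groups

`L` is a group with homomorphisms `f i` to free groups which are jointly injective. Let `J` be a minimal
set of indices such that the `f j`, `j ∈ J`, have nonabelian images and only the centre of `L` is in all
their kernels. Each automorphism of `L` permutes the kernels of the `f j`, `j ∈ J`.
-/

set_option autoImplicit false

namespace Pool.Agent.Run7.h132.FJ

open Pool.Agent.R629.FreeCent in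
/-- a nontrivial normal subgroup of a nonabelian subgroup of a free group is not abelian, and its
commutators do not commute, either -/
theorem noncomm {L X : Type} [Group L] (θ : L →* FreeGroup X)
    (hna : ∃ a b, θ a * θ b ≠ θ b * θ a) (D : Subgroup L) [hD : D.Normal] {q : L} (hq : q ∈ D)
    (hq1 : θ q ≠ 1) : ∃ u ∈ D, ∃ v ∈ D, θ u * θ v ≠ θ v * θ u := by
  have h1 : ∃ p : L, θ p * θ q ≠ θ q * θ p := by
    by_contra hcon
    push Not at hcon
    obtain ⟨a, b, hab⟩ := hna
    exact hab (comm_trans hq1 (hcon a) (hcon b).symm)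
  obtain ⟨p, hp⟩ := h1
  refine ⟨q, hq, p * q * p⁻¹, hD.conj_mem q hq p, fun h => hp ?_⟩
  -- `q` and `p q p⁻¹` commute
  have h2 : (θ p)⁻¹ * θ q * θ p * θ q = θ q * ((θ p)⁻¹ * θ q * θ p) := by
    have h3 := congrArg (fun z => (θ p)⁻¹ * z * θ p) h
    simp only [map_mul, map_inv] at h3
    calc (θ p)⁻¹ * θ q * θ p * θ q = (θ p)⁻¹ * (θ q * (θ p * θ q * (θ p)⁻¹)) * θ p := by group
      _ = (θ p)⁻¹ * (θ p * θ q * (θ p)⁻¹ * θ q) * θ p := h3
      _ = _ := by group
  exact malnormal hq1 hq1 rfl h2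

/-- the commutators of elements which commute with `x` -/
def cm {L : Type} [Group L] (x : L) : Set L :=
  {w | ∃ a b, a * x = x * a ∧ b * x = x * b ∧ w = a * b * a⁻¹ * b⁻¹}

/-- the elements which commute with them -/
def st {L : Type} [Group L] (x : L) : Set L := {y | ∀ w ∈ cm x, y * w = w * y}

theorem cm_map {L : Type} [Group L] (φ : L ≃* L) {x w : L} (h : w ∈ cm x) : φ w ∈ cm (φ x) := by
  obtain ⟨a, b, h1, h2, rfl⟩ := h
  refine ⟨φ a, φ b, ?_, ?_, by simp⟩
  · rw [← map_mul, h1, map_mul]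
  · rw [← map_mul, h2, map_mul]

theorem st_map {L : Type} [Group L] (φ : L ≃* L) {x y : L} (h : y ∈ st x) : φ y ∈ st (φ x) := by
  intro w hw
  have h1 := cm_map φ.symm hw
  rw [φ.symm_apply_apply] at h1
  have h2 := congrArg φ (h _ h1)
  rwa [map_mul, map_mul, φ.apply_symm_apply] at h2

section

variable {L I : Type} [Group L] {X : I → Type} (f : ∀ i, L →* FreeGroup (X i))

/-- the image of `f i` is not abelian -/
def NA (i : I) : Prop := ∃ a b, f i a * f i b ≠ f i b * f i a

/-- the elements with one component only -/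
def co (J : Set I) (i : I) : Subgroup L where
  carrier := {x | ∀ j ∈ J, j ≠ i → f j x = 1}
  one_mem' := fun j _ _ => map_one _
  mul_mem' := fun {a b} ha hb j hj hi => by rw [map_mul, ha j hj hi, hb j hj hi, mul_one]
  inv_mem' := fun {a} ha j hj hi => by rw [map_inv, ha j hj hi, inv_one]

instance co_normal (J : Set I) (i : I) : (co f J i).Normal :=
  ⟨fun x hx g j hj hi => by rw [map_mul, map_mul, hx j hj hi, mul_one, map_inv, mul_inv_cancel]⟩

/-- the data: `J` is a minimal set of indices with nonabelian images such that the elements killed by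
all `f j`, `j ∈ J`, are central -/
structure Red (J : Set I) : Prop where
  inj : ∀ x : L, (∀ i, f i x = 1) → x = 1
  na : ∀ j ∈ J, NA f j
  ker : ∀ x : L, (∀ j ∈ J, f j x = 1) → ∀ y : L, x * y = y * x
  ne : ∀ j ∈ J, ∃ q ∈ co f J j, f j q ≠ 1

open Pool.Agent.R629.FreeCent in
theorem central_iff {z : L} (hz : ∀ y : L, z * y = y * z) {i : I} (hi : NA f i) : f i z = 1 := by
  by_contra h
  obtain ⟨a, b, hab⟩ := hi
  refine hab (comm_trans h ?_ ?_)
  · rw [← map_mul, ← hz a, map_mul]
  · rw [← map_mul, hz b, map_mul]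

/-- a minimal set exists -/
theorem exists_red [Finite I] (hinj : ∀ x : L, (∀ i, f i x = 1) → x = 1) : ∃ J : Set I, Red f J := by
  classical
  have h0 : ∀ x : L, (∀ j ∈ {i | NA f i}, f j x = 1) → ∀ y : L, x * y = y * x := by
    intro x hx y
    rw [← mul_inv_eq_one, mul_inv_rev, ← mul_assoc]
    apply hinj
    intro i
    by_cases hi : NA f i
    · simp [hx i hi]
    · unfold NA at hi
      push Not at hi
      have := hi x y
      simp only [map_mul, map_inv]
      rw [this]
      group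
  obtain ⟨S, hS⟩ : ∃ S : Set (Set I), S = {J | J ⊆ {i | NA f i} ∧
      ∀ x : L, (∀ j ∈ J, f j x = 1) → ∀ y : L, x * y = y * x} := ⟨_, rfl⟩
  have hne : S.Nonempty := ⟨{i | NA f i}, by rw [hS]; exact ⟨subset_rfl, h0⟩⟩
  obtain ⟨J, hJ⟩ := S.toFinite.exists_minimal hne
  have hJS := hJ.prop
  rw [hS] at hJS
  refine ⟨J, hinj, fun j hj => hJS.1 hj, hJS.2, fun j hj => ?_⟩
  by_contra hcon
  push Not at hcon
  have h1 : J \ {j} ∈ S := by
    rw [hS]
    refine ⟨fun i hi => hJS.1 hi.1, fun x hx => hJS.2 x fun i hi => ?_⟩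
    by_cases hij : i = j
    · subst hij
      exact hcon x fun k hk hki => hx k ⟨hk, hki⟩
    · exact hx i ⟨hi, hij⟩
  have h2 := hJ.le_of_le h1 Set.sdiff_subset hj
  exact h2.2 rfl

variable {f} {J : Set I}

/-- two elements commute if their components do -/
theorem Red.comm (h : Red f J) {x y : L} (hxy : ∀ j ∈ J, f j x * f j y = f j y * f j x) :
    x * y = y * x := by
  have h1 : ∀ z, x * y * x⁻¹ * y⁻¹ * z = z * (x * y * x⁻¹ * y⁻¹) := by
    apply h.ker
    intro j hj
    simp only [map_mul, map_inv]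
    rw [hxy j hj]
    group
  rw [← mul_inv_eq_one, mul_inv_rev, ← mul_assoc]
  apply h.inj
  intro i
  by_cases hi : NA f i
  · exact central_iff f h1 hi
  · unfold NA at hi
    push Not at hi
    have := hi x y
    simp only [map_mul, map_inv]
    rw [this]
    group

theorem Red.noncomm (h : Red f J) {j : I} (hj : j ∈ J) :
    ∃ u ∈ co f J j, ∃ v ∈ co f J j, f j u * f j v ≠ f j v * f j u := by
  obtain ⟨q, hq, hq1⟩ := h.ne j hj
  exact h132.FJ.noncomm (f j) (h.na j hj) (co f J j) hq hq1

/-- an element of `co j` commutes with the elements killed by `f j` -/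
theorem Red.comm_co (h : Red f J) {j : I} {u x : L} (hu : u ∈ co f J j) (hx : f j x = 1) :
    u * x = x * u := by
  apply h.comm
  intro k hk
  by_cases hkj : k = j
  · subst hkj
    rw [hx, mul_one, one_mul]
  · rw [hu k hk hkj, mul_one, one_mul]

open Pool.Agent.R629.FreeCent in
theorem Red.st_iff (h : Red f J) (x y : L) : y ∈ st x ↔ ∀ j ∈ J, f j x = 1 → f j y = 1 := by
  constructor
  · intro hy j hj hx
    by_contra hy1
    obtain ⟨u, hu, v, hv, huv⟩ := h.noncomm hj
    -- the commutator of `u` and `v`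
    have hw : u * v * u⁻¹ * v⁻¹ ∈ co f J j :=
      mul_mem (mul_mem (mul_mem hu hv) (inv_mem hu)) (inv_mem hv)
    have hw1 : f j (u * v * u⁻¹ * v⁻¹) ≠ 1 := by
      intro h1
      apply huv
      simp only [map_mul, map_inv] at h1
      rw [mul_inv_eq_one, mul_inv_eq_iff_eq_mul] at h1
      exact h1
    -- a conjugate does not commute with it
    have h2 : ∃ p : L, f j p * f j (u * v * u⁻¹ * v⁻¹) ≠ f j (u * v * u⁻¹ * v⁻¹) * f j p := by
      by_contra hcon
      push Not at hcon
      exact huv (comm_trans hw1 (hcon u) (hcon v).symm)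
    obtain ⟨p, hp⟩ := h2
    have hcmu : u * v * u⁻¹ * v⁻¹ ∈ cm x :=
      ⟨u, v, h.comm_co hu hx, h.comm_co hv hx, rfl⟩
    have hpu : p * u * p⁻¹ ∈ co f J j := (co_normal f J j).conj_mem u hu p
    have hpv : p * v * p⁻¹ ∈ co f J j := (co_normal f J j).conj_mem v hv p
    have hcmp : p * (u * v * u⁻¹ * v⁻¹) * p⁻¹ ∈ cm x :=
      ⟨p * u * p⁻¹, p * v * p⁻¹, h.comm_co hpu hx, h.comm_co hpv hx, by group⟩
    have h3 := congrArg (f j) (hy _ hcmu)
    have h4 := congrArg (f j) (hy _ hcmp)
    rw [map_mul (f j) y, map_mul (f j) _ y] at h3 h4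
    have h5 := comm_trans hy1 h3.symm h4
    apply hp
    obtain ⟨w, hwe⟩ : ∃ w, w = f j (u * v * u⁻¹ * v⁻¹) := ⟨_, rfl⟩
    rw [map_mul (f j) (p * (u * v * u⁻¹ * v⁻¹)) p⁻¹, map_mul (f j) p, map_inv (f j) p, ← hwe] at h5
    rw [← hwe] at hw1 ⊢
    refine malnormal hw1 hw1 rfl ?_
    have h6 := congrArg (fun z => (f j p)⁻¹ * z * f j p) h5
    calc (f j p)⁻¹ * w * f j p * w = (f j p)⁻¹ * (w * (f j p * w * (f j p)⁻¹)) * f j p := by group
      _ = (f j p)⁻¹ * (f j p * w * (f j p)⁻¹ * w) * f j p := h6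
      _ = _ := by group
  · rintro hy w ⟨a, b, ha, hb, rfl⟩
    apply h.comm
    intro j hj
    by_cases hx : f j x = 1
    · rw [hy j hj hx, one_mul, mul_one]
    · have h1 : f j a * f j b = f j b * f j a := by
        refine comm_trans hx ?_ ?_
        · rw [← map_mul, ha, map_mul]
        · rw [← map_mul, ← hb, map_mul]
      have h2 : f j (a * b * a⁻¹ * b⁻¹) = 1 := by
        simp only [map_mul, map_inv]
        rw [h1]
        group
      rw [h2, one_mul, mul_one]

theorem Red.st_co (h : Red f J) {i : I} (hi : i ∈ J) {x : L} (hx : x ∈ co f J i) (hx1 : f i x ≠ 1)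
    (y : L) : y ∈ st x ↔ y ∈ co f J i := by
  rw [h.st_iff]
  constructor
  · intro hy j hj hji
    exact hy j hj (hx j hj hji)
  · intro hy j hj hxj
    by_cases hji : j = i
    · subst hji
      exact absurd hxj hx1
    · exact hy j hj hji

/-- automorphisms permute the groups `co i` -/
theorem Red.perm_co (h : Red f J) (φ : L ≃* L) {i : I} (hi : i ∈ J) :
    ∃ j ∈ J, ∀ x, x ∈ co f J i ↔ φ x ∈ co f J j := by
  obtain ⟨x0, hx0, hx1⟩ := h.ne i hi
  have h1 : ∃ j ∈ J, f j (φ x0) ≠ 1 := by
    by_contra hcon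
    push Not at hcon
    have h2 := h.ker _ hcon
    apply hx1
    refine central_iff f (fun y => ?_) (h.na i hi)
    apply φ.injective
    rw [map_mul, map_mul]
    exact h2 _
  obtain ⟨j, hj, hj1⟩ := h1
  obtain ⟨y0, hy0, hy1⟩ := h.ne j hj
  have h2 : y0 ∈ st (φ x0) := by
    rw [h.st_iff]
    intro k hk hk1
    by_cases hkj : k = j
    · subst hkj
      exact absurd hk1 hj1
    · exact hy0 k hk hkj
  have h3 := st_map φ.symm h2
  rw [φ.symm_apply_apply, h.st_co hi hx0 hx1] at h3
  have h4 : f i (φ.symm y0) ≠ 1 := by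
    intro h5
    apply hy1
    refine central_iff f (fun y => ?_) (h.na j hj)
    apply φ.symm.injective
    rw [map_mul, map_mul]
    apply h.ker
    intro k hk
    by_cases hki : k = i
    · subst hki
      exact h5
    · exact h3 k hk hki
  refine ⟨j, hj, fun x => ?_⟩
  rw [← h.st_co hi h3 h4, ← h.st_co hj hy0 hy1]
  constructor
  · intro hx
    have := st_map φ hx
    rwa [φ.apply_symm_apply] at this
  · intro hx
    have := st_map φ.symm hx
    rwa [φ.symm_apply_apply] at this

open Pool.Agent.R629.FreeCent in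
/-- the kernel of `f j` is the centraliser of `co j` -/
theorem Red.ker_iff (h : Red f J) {j : I} (hj : j ∈ J) (y : L) :
    f j y = 1 ↔ ∀ u ∈ co f J j, u * y = y * u := by
  refine ⟨fun hy u hu => h.comm_co hu hy, fun hy => ?_⟩
  by_contra hy1
  obtain ⟨u, hu, v, hv, huv⟩ := h.noncomm hj
  refine huv (comm_trans hy1 ?_ ?_)
  · rw [← map_mul, hy u hu, map_mul]
  · rw [← map_mul, ← hy v hv, map_mul]

/-- automorphisms which preserve `co j` preserve the kernel of `f j` -/
theorem Red.ker_map (h : Red f J) {j : I} (hj : j ∈ J) (φ : L ≃* L)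
    (hφ : ∀ x, x ∈ co f J j ↔ φ x ∈ co f J j) {y : L} (hy : f j y = 1) : f j (φ y) = 1 := by
  rw [h.ker_iff hj] at hy ⊢
  intro u hu
  have h1 : φ.symm u ∈ co f J j := by
    rw [hφ, φ.apply_symm_apply]
    exact hu
  have h2 := congrArg φ (hy _ h1)
  rwa [map_mul, map_mul, φ.apply_symm_apply] at h2

end

end Pool.Agent.Run7.h132.FJ
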