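import Pool.Agent.Run7.h132.FJ.Steps

/-!
# Extensions whose kernel is a subgroup of a direct product of free groups
-/

set_option autoImplicit false

namespace Pool.Agent.Run7.h132.FJ

open Pool.Agent.Y110.FJ
open Pool.Agent.R941.FJ (C_equiv C_le C_cyc mem_sup_normal)
open Pool.Agent.Y462.SS (Closed)

variable {C : ∀ (G : Type) [Group G], Prop}

section stab

variable {L I : Type} [Group L] {X : I → Type} (f : ∀ i, L →* FreeGroup (X i)) (J : Set I)

/-- the automorphisms which preserve all `co j` -/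
def Hs : Subgroup (MulAut L) where
  carrier := {φ | ∀ j ∈ J, ∀ x, x ∈ co f J j ↔ φ x ∈ co f J j}
  one_mem' := fun j _ x => Iff.rfl
  mul_mem' := fun {a b} ha hb j hj x => (hb j hj x).trans (ha j hj (b x))
  inv_mem' := fun {a} ha j hj x => by
    have h1 := ha j hj (a⁻¹ x)
    rw [MulAut.apply_inv_self] at h1
    exact h1.symm

variable {f J}

theorem Red.finiteIndex [Finite I] (h : Red f J) : (Hs f J).FiniteIndex := by
  classical
  have h1 : ∀ (φ : MulAut L) (i : J), ∃ j : J, ∀ x, x ∈ co f J i ↔ φ x ∈ co f J j := by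
    intro φ i
    obtain ⟨j, hj, h2⟩ := h.perm_co φ i.2
    exact ⟨⟨j, hj⟩, h2⟩
  choose σ hσ using h1
  have h2 : Finite (MulAut L ⧸ Hs f J) := by
    refine Finite.of_injective (fun q : MulAut L ⧸ Hs f J => σ q.out) fun p q hpq => ?_
    have h3 : σ p.out = σ q.out := hpq
    rw [← QuotientGroup.out_eq' p, ← QuotientGroup.out_eq' q, QuotientGroup.eq]
    intro j hj x
    have h4 := hσ q.out ⟨j, hj⟩ x
    rw [← h3] at h4
    have h5 := hσ p.out ⟨j, hj⟩ ((p.out)⁻¹ (q.out x))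
    rw [MulAut.apply_inv_self] at h5
    rw [h4, ← h5]
    rfl
  exact Subgroup.finiteIndex_of_finite_quotient

end stab

section main

variable {G I : Type} [Group G] {L : Subgroup G} {X : I → Type}
  (f : ∀ i, L →* FreeGroup (X i)) (H : Subgroup G)

/-- the elements of `L` in the kernels of the `f j`, `j ∈ S` -/
def Ms (S : Set I) : Subgroup H where
  carrier := {x | ∃ hx : (x : G) ∈ L, ∀ j ∈ S, f j ⟨x, hx⟩ = 1}
  one_mem' := ⟨L.one_mem, fun j _ => map_one (f j)⟩
  mul_mem' := by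
    rintro a b ⟨ha, ha'⟩ ⟨hb, hb'⟩
    refine ⟨L.mul_mem ha hb, fun j hj => ?_⟩
    have : (⟨((a * b : H) : G), L.mul_mem ha hb⟩ : L) = ⟨a, ha⟩ * ⟨b, hb⟩ := rfl
    rw [this, map_mul, ha' j hj, hb' j hj, mul_one]
  inv_mem' := by
    rintro a ⟨ha, ha'⟩
    refine ⟨L.inv_mem ha, fun j hj => ?_⟩
    have : (⟨((a⁻¹ : H) : G), L.inv_mem ha⟩ : L) = (⟨a, ha⟩ : L)⁻¹ := rfl
    rw [this, map_inv, ha' j hj, inv_one]

variable {f H}

theorem mem_Ms {S : Set I} {x : H} : x ∈ Ms f H S ↔ ∃ hx : (x : G) ∈ L, ∀ j ∈ S, f j ⟨x, hx⟩ = 1 :=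
  Iff.rfl

theorem Ms_normal [L.Normal] {J : Set I} (h : Red f J)
    (hH : H = (Hs f J).comap MulAut.conjNormal) {S : Set I} (hS : S ⊆ J) : (Ms f H S).Normal := by
  refine ⟨?_⟩
  rintro x ⟨hx, hx'⟩ g
  refine ⟨Subgroup.Normal.conj_mem inferInstance _ hx g, fun j hj => ?_⟩
  have hg : MulAut.conjNormal (g : G) ∈ Hs f J := by
    have := hH.le g.2
    exact this
  exact h.ker_map (hS hj) (MulAut.conjNormal (g : G)) (hg j (hS hj)) (hx' j hj)

theorem chain (hC : ClosedE C) (hF : Pool.Agent.R684.FP.FbC C) [L.Normal] {J : Set I}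
    (hfin : J.Finite) (h : Red f J) (hH : H = (Hs f J).comap MulAut.conjNormal)
    (hQ : C (G ⧸ L)) : ∃ hn : (Ms f H J).Normal, C (H ⧸ Ms f H J) := by
  classical
  refine Set.Finite.induction_on_subset (motive := fun S _ =>
    ∃ hn : (Ms f H S).Normal, C (H ⧸ Ms f H S)) J hfin ?_ ?_
  · have hn : (Ms f H (∅ : Set I)).Normal := Ms_normal h hH (Set.empty_subset _)
    refine ⟨hn, hC.base.of_injective _ (G ⧸ L) (QuotientGroup.lift (Ms f H ∅)
      ((QuotientGroup.mk' L).comp H.subtype) ?_) ?_ hQ⟩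
    · rintro x ⟨hx, -⟩
      exact (QuotientGroup.eq_one_iff _).2 hx
    · rw [injective_iff_map_eq_one]
      intro a ha
      obtain ⟨x, rfl⟩ := QuotientGroup.mk_surjective a
      refine (QuotientGroup.eq_one_iff _).2 ⟨(QuotientGroup.eq_one_iff _).1 ha, ?_⟩
      rintro j ⟨⟩
  · intro a S haJ hSJ _ ih
    obtain ⟨_, ih⟩ := ih
    have hSJ' : insert a S ⊆ J := Set.insert_subset haJ hSJ
    have hn' : (Ms f H (insert a S)).Normal := Ms_normal h hH hSJ'
    refine ⟨hn', ?_⟩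
    have hle : Ms f H (insert a S) ≤ Ms f H S := by
      rintro x ⟨hx, hx'⟩
      exact ⟨hx, fun j hj => hx' j (Set.mem_insert_of_mem a hj)⟩
    let θ : Ms f H S →* FreeGroup (X a) :=
      { toFun := fun x => f a ⟨(x : H), x.2.choose⟩
        map_one' := map_one (f a)
        map_mul' := fun x y => by
          rw [← map_mul]
          rfl }
    refine free_step hC hF hle θ (fun x => ?_) ih
    constructor
    · intro hx
      refine ⟨x.2.choose, fun j hj => ?_⟩
      rcases hj with rfl | hj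
      · exact hx
      · exact x.2.choose_spec j hj
    · rintro ⟨hx, hx'⟩
      exact hx' a (Set.mem_insert _ _)

/-- **extensions whose kernel is a subgroup of a finite direct product of free groups** -/
theorem pf_ext (hC : ClosedE C) (hF : Pool.Agent.R684.FP.FbC C) (hS : Solv C) [L.Normal] [Finite I]
    (f : ∀ i, L →* FreeGroup (X i)) (hinj : ∀ x : L, (∀ i, f i x = 1) → x = 1)
    (hQ : C (G ⧸ L)) : C G := by
  obtain ⟨J, hJ⟩ := exists_red f hinj
  obtain ⟨H, hH⟩ : ∃ H : Subgroup G, H = (Hs f J).comap MulAut.conjNormal := ⟨_, rfl⟩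
  have hfi : H.FiniteIndex := by
    have := hJ.finiteIndex
    rw [hH]
    refine ⟨?_⟩
    rw [Subgroup.index_comap]
    exact (inferInstance : ((Hs f J).subgroupOf _).FiniteIndex).index_ne_zero
  refine hC.base.finiteIndex G H hfi ?_
  obtain ⟨hn, h1⟩ := chain hC hF J.toFinite hJ hH hQ
  refine sol_ext hC hS (Ms f H J) ?_ h1
  refine Group.isSolvable_of_comm fun a b => ?_
  obtain ⟨ha, ha'⟩ := a.2
  obtain ⟨hb, hb'⟩ := b.2
  have h2 := hJ.ker ⟨(a : H), ha⟩ ha' ⟨(b : H), hb⟩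
  have h3 : ((a : H) : G) * ((b : H) : G) = ((b : H) : G) * ((a : H) : G) := congrArg Subtype.val h2
  exact Subtype.ext (Subtype.ext h3)

end main

end Pool.Agent.Run7.h132.FJ
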