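import Pool.Agent.R684.FP.Free
import Pool.Agent.Run7.h132.FJ.Perm

/-!
# Extensions with solvable, locally finite, free kernels, in steps
-/

set_option autoImplicit false

namespace Pool.Agent.Run7.h132.FJ

open Pool.Agent.Y110.FJ
open Pool.Agent.R941.FJ (C_equiv C_le C_cyc mem_sup_normal)
open Pool.Agent.Y462.SS (Closed)

variable {C : ∀ (G : Type) [Group G], Prop}

/-- the class contains the solvable groups -/
def Solv (C : ∀ (G : Type) [Group G], Prop) : Prop := ∀ (S : Type) [Group S], Group.IsSolvable S → C S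

theorem third (hC : ClosedE C) {G : Type} [Group G] {A B : Subgroup G} [A.Normal] [B.Normal]
    (h : B ≤ A) (hQ : C (G ⧸ A)) : C ((G ⧸ B) ⧸ (A.map (QuotientGroup.mk' B))) :=
  C_equiv hC.base (QuotientGroup.quotientQuotientEquivQuotient B A h) hQ

/-- solvable kernels -/
theorem sol_ext (hC : ClosedE C) (hS : Solv C) {G : Type} [Group G] (K : Subgroup G) [K.Normal]
    (hK : Group.IsSolvable K) (hQ : C (G ⧸ K)) : C G := by
  refine Pool.Agent.Y529.FJ.t_ext C hC G K (hS _ hK) hQ fun g _ => hS _ ?_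
  obtain ⟨H, hH⟩ : ∃ H : Subgroup G, H = K ⊔ Subgroup.zpowers g := ⟨_, rfl⟩
  rw [← hH]
  have hKH : K ≤ H := by rw [hH]; exact le_sup_left
  have h1 : Group.IsSolvable ↥(K.subgroupOf H) :=
    Group.isSolvable_of_isSolvable_injective (f := (Subgroup.subgroupOfEquivOfLe hKH).toMonoidHom)
      (Subgroup.subgroupOfEquivOfLe hKH).injective
  have h2 : Group.IsSolvable (H ⧸ K.subgroupOf H) := by
    have h3 : ∀ a b : H ⧸ K.subgroupOf H, a * b = b * a := by
      have h4 : ∀ x : H, ∃ k : ℤ, (x : H ⧸ K.subgroupOf H) =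
          ((⟨g, by rw [hH]; exact Subgroup.mem_sup_right (Subgroup.mem_zpowers _)⟩ : H) ^ k : H) := by
        intro x
        have hx : (x : G) ∈ K ⊔ Subgroup.zpowers g := hH.le x.2
        obtain ⟨a, ha, b, hb, hab⟩ := mem_sup_normal.1 hx
        obtain ⟨k, rfl⟩ := Subgroup.mem_zpowers_iff.1 hb
        refine ⟨k, ?_⟩
        rw [eq_comm, QuotientGroup.eq, Subgroup.mem_subgroupOf]
        show (((⟨g, _⟩ : H) ^ k : H) : G)⁻¹ * (x : G) ∈ K
        rw [← hab, Subgroup.coe_zpow]
        have := Subgroup.Normal.conj_mem (inferInstance : K.Normal) a ha (g ^ k)⁻¹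
        rw [inv_inv] at this
        rwa [← mul_assoc]
      intro a b
      obtain ⟨x, rfl⟩ := QuotientGroup.mk_surjective a
      obtain ⟨y, rfl⟩ := QuotientGroup.mk_surjective b
      obtain ⟨k, hk⟩ := h4 x
      obtain ⟨l, hl⟩ := h4 y
      rw [hk, hl, ← QuotientGroup.mk_mul, ← QuotientGroup.mk_mul, ← zpow_add, ← zpow_add, add_comm]
    exact Group.isSolvable_of_comm h3
  exact Group.isSolvable_of_ker_le_range (K.subgroupOf H).subtype (QuotientGroup.mk' (K.subgroupOf H))
    (by rw [QuotientGroup.ker_mk', Subgroup.range_subtype])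

/-- a factor of a normal series which is embedded in a free group -/
theorem free_factor {G X : Type} [Group G] {A B : Subgroup G} [B.Normal]
    (θ : A →* FreeGroup X) (hθ : ∀ x : A, θ x = 1 ↔ (x : G) ∈ B) :
    IsFreeGroup ↥(A.map (QuotientGroup.mk' B)) := by
  let ψ : A →* A.map (QuotientGroup.mk' B) :=
    ((QuotientGroup.mk' B).comp A.subtype).codRestrict _ fun x => ⟨x, x.2, rfl⟩
  have hψ : Function.Surjective ψ := by
    rintro ⟨y, x, hx, rfl⟩
    exact ⟨⟨x, hx⟩, rfl⟩
  have hk : ψ.ker = θ.ker := by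
    ext x
    rw [MonoidHom.mem_ker, MonoidHom.mem_ker, hθ, ← QuotientGroup.eq_one_iff (N := B)]
    exact ⟨fun h => congrArg Subtype.val h, fun h => Subtype.ext h⟩
  have e : (A.map (QuotientGroup.mk' B)) ≃* θ.range :=
    (QuotientGroup.quotientKerEquivOfSurjective ψ hψ).symm.trans
      ((QuotientGroup.quotientMulEquivOfEq hk).trans (QuotientGroup.quotientKerEquivRange θ))
  exact IsFreeGroup.ofMulEquiv e.symm

/-- a step of a normal series, embedded in a free group -/
theorem free_step (hC : ClosedE C) (hF : Pool.Agent.R684.FP.FbC C) {G X : Type} [Group G]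
    {A B : Subgroup G} [A.Normal] [B.Normal] (hle : B ≤ A) (θ : A →* FreeGroup X)
    (hθ : ∀ x : A, θ x = 1 ↔ (x : G) ∈ B) (hQ : C (G ⧸ A)) : C (G ⧸ B) := by
  have h1 := free_factor θ hθ
  have h2 : (A.map (QuotientGroup.mk' B)).Normal :=
    Subgroup.Normal.map inferInstance _ (QuotientGroup.mk'_surjective B)
  exact Pool.Agent.R684.FP.free_ext hC hF (A.map (QuotientGroup.mk' B)) (third hC hle hQ)

end Pool.Agent.Run7.h132.FJ
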