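import Pool.Agent.Run7.h132.FJ.Defs
import Pool.Agent.Run7.h132.FJ.Prod

/-!
# Kernels which are virtually subgroups of products of free-by-solvable groups, and towers
-/

set_option autoImplicit false

namespace Pool.Agent.Run7.h132.FJ

open Pool.Agent.Y110.FJ
open Pool.Agent.R941.FJ (C_equiv C_le C_cyc mem_sup_normal)
open Pool.Agent.Y462.SS (Closed)

variable {C : ∀ (G : Type) [Group G], Prop}

theorem locFin_of_injective {K K' : Type} [Group K] [Group K'] (r : K →* K')
    (hr : Function.Injective r) (h : LocFin K') : LocFin K := by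
  classical
  intro s
  have h1 := h (s.image r)
  have h2 : (Subgroup.closure (s : Set K)).map r = Subgroup.closure ((s.image r : Finset K') : Set K') := by
    rw [MonoidHom.map_closure, Finset.coe_image]
  rw [← h2] at h1
  exact Finite.of_injective ((Subgroup.closure (s : Set K)).equivMapOfInjective r hr)
    (MulEquiv.injective _)

/-- locally finite kernels -/
theorem lf_ext (hC : ClosedE C) {G : Type} [Group G] (K : Subgroup G) [K.Normal] (hK : LocFin K)
    (hQ : C (G ⧸ K)) : C G := by
  classical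
  refine Pool.Agent.R941.FJ.lfk hC K (fun E hE hEK => ?_) hQ
  have h1 := hK ((hE.preimage Subtype.val_injective.injOn : (Subtype.val ⁻¹' E : Set K).Finite).toFinset)
  have h2 : (Subgroup.closure (Subtype.val ⁻¹' E : Set K)).map K.subtype = Subgroup.closure E := by
    rw [MonoidHom.map_closure]
    congr 1
    ext x
    constructor
    · rintro ⟨y, hy, rfl⟩
      exact hy
    · intro hx
      exact ⟨⟨x, hEK hx⟩, hx, rfl⟩
  rw [Set.Finite.coe_toFinset] at h1
  rw [← h2]
  exact Finite.of_surjective ((Subgroup.closure (Subtype.val ⁻¹' E : Set K)).equivMapOfInjective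
    K.subtype K.subtype_injective) (MulEquiv.surjective _)

/-- centreless kernels with automorphism group in the class -/
theorem aut_ext (hC : ClosedE C) {G : Type} [Group G] (K : Subgroup G) [K.Normal] (hK : AutIn C K)
    (hQ : C (G ⧸ K)) : C G := by
  refine hC.base.of_injective _ _
    ((QuotientGroup.mk' K).prod (MulAut.conjNormal : G →* MulAut K)) ?_ (hC.base.prod _ _ hQ hK.2)
  rw [injective_iff_map_eq_one]
  intro a ha
  have h1 : a ∈ K := (QuotientGroup.eq_one_iff _).1 (congrArg Prod.fst ha)
  have h2 : (MulAut.conjNormal a : MulAut K) = 1 := congrArg Prod.snd ha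
  have h3 := hK.1 ⟨a, h1⟩ fun x => by
    have h4 := DFunLike.congr_fun h2 x
    have h5 : a * (x : G) * a⁻¹ = x := congrArg Subtype.val h4
    exact Subtype.ext (mul_inv_eq_iff_eq_mul.1 h5)
  exact congrArg Subtype.val h3

/-- the factor `N / N₁`, where `N₁` is the intersection of the conjugates of a subgroup of finite index -/
theorem core_locFin {G : Type} [Group G] (N : Subgroup G) [N.Normal] (H : Subgroup N)
    (hH : H.FiniteIndex) :
    LocFin ↥(N.map (QuotientGroup.mk' (H.map N.subtype).normalCore)) := by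
  obtain ⟨N1, hN1⟩ : ∃ N1 : Subgroup G, N1 = (H.map N.subtype).normalCore := ⟨_, rfl⟩
  have hn : N1.Normal := by rw [hN1]; infer_instance
  have hle : N1 ≤ H.map N.subtype := by rw [hN1]; exact Subgroup.normalCore_le _
  have hmem : ∀ n : N, (n : G) ∈ H.map N.subtype ↔ n ∈ H := fun n => by
    constructor
    · rintro ⟨m, hm, hmn⟩
      rwa [← (Subtype.ext hmn : m = n)]
    · intro hn
      exact ⟨n, hn, rfl⟩
  let ρ : N →* (G → Equiv.Perm (N ⧸ H)) :=
    { toFun := fun n g => MulAction.toPermHom N (N ⧸ H) (MulAut.conjNormal g n)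
      map_one' := by
        funext g
        show MulAction.toPermHom N (N ⧸ H) (MulAut.conjNormal g 1) = 1
        rw [map_one, map_one]
      map_mul' := fun a b => by
        funext g
        show MulAction.toPermHom N (N ⧸ H) (MulAut.conjNormal g (a * b)) =
          MulAction.toPermHom N (N ⧸ H) (MulAut.conjNormal g a) *
            MulAction.toPermHom N (N ⧸ H) (MulAut.conjNormal g b)
        rw [map_mul, map_mul] }
  have hker : ∀ n : N, ρ n = 1 ↔ (n : G) ∈ N1 := by
    intro n
    constructor
    · intro h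
      rw [hN1]
      intro g
      have h1 := congrFun h g
      have h2 := DFunLike.congr_fun h1 ((1 : N) : N ⧸ H)
      have h3 : ((MulAut.conjNormal g n * 1 : N) : N ⧸ H) = ((1 : N) : N ⧸ H) := h2
      rw [mul_one, eq_comm, QuotientGroup.eq, inv_one, one_mul] at h3
      exact (hmem _).2 h3
    · intro h
      funext g
      ext x
      obtain ⟨a, rfl⟩ := QuotientGroup.mk_surjective x
      show ((MulAut.conjNormal g n * a : N) : N ⧸ H) = (a : N ⧸ H)
      rw [eq_comm, QuotientGroup.eq]
      have h1 : ((a⁻¹ * (MulAut.conjNormal g n * a) : N) : G) ∈ N1 := by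
        have h2 := hn.conj_mem (n : G) h (((a : G)⁻¹) * g)
        have h3 : ((a⁻¹ * (MulAut.conjNormal g n * a) : N) : G) =
            (((a : G)⁻¹) * g) * (n : G) * (((a : G)⁻¹) * g)⁻¹ := by
          push_cast
          rw [MulAut.conjNormal_apply]
          group
        rw [h3]
        exact h2
      exact (hmem _).1 (hle h1)
  let ψ : N →* N.map (QuotientGroup.mk' N1) :=
    ((QuotientGroup.mk' N1).comp N.subtype).codRestrict _ fun x => ⟨x, x.2, rfl⟩
  have hψ : Function.Surjective ψ := by
    rintro ⟨y, x, hx, rfl⟩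
    exact ⟨⟨x, hx⟩, rfl⟩
  have hk : ψ.ker = ρ.ker := by
    ext x
    rw [MonoidHom.mem_ker, MonoidHom.mem_ker, hker, ← QuotientGroup.eq_one_iff (N := N1)]
    exact ⟨fun h => congrArg Subtype.val h, fun h => Subtype.ext h⟩
  have e : (N.map (QuotientGroup.mk' N1)) ≃* ρ.range :=
    (QuotientGroup.quotientKerEquivOfSurjective ψ hψ).symm.trans
      ((QuotientGroup.quotientMulEquivOfEq hk).trans (QuotientGroup.quotientKerEquivRange ρ))
  subst hN1
  refine locFin_of_injective (ρ.range.subtype.comp e.toMonoidHom)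
    (ρ.range.subtype_injective.comp e.injective) fun s => ?_
  have : Finite (Equiv.Perm (N ⧸ H)) := by
    have : Finite (N ⧸ H) := inferInstance
    infer_instance
  exact Pool.Agent.Y430.SS.t_pow (Equiv.Perm (N ⧸ H)) G inferInstance s

theorem derived_le {X : Type} [Group X] (K : Subgroup X) [K.Normal] {k : ℕ}
    (h : derivedSeries (X ⧸ K) k = ⊥) : derivedSeries X k ≤ K := by
  intro x hx
  have h1 := map_derivedSeries_le_derivedSeries (QuotientGroup.mk' K) k (Subgroup.mem_map_of_mem _ hx)
  rw [h, Subgroup.mem_bot] at h1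
  exact (QuotientGroup.eq_one_iff _).1 h1

/-- **kernels which are virtually subgroups of finite products of free-by-solvable groups** -/
theorem vp_ext (hC : ClosedE C) (hF : Pool.Agent.R684.FP.FbC C) (hS : Solv C) {G : Type} [Group G]
    (N : Subgroup G) [N.Normal] (hN : VirtProd N) (hQ : C (G ⧸ N)) : C G := by
  obtain ⟨H, n, X, hX, f, hH, hfs, hinj⟩ := hN
  obtain ⟨N1, hN1⟩ : ∃ N1 : Subgroup G, N1 = (H.map N.subtype).normalCore := ⟨_, rfl⟩
  have hN1n : N1.Normal := by rw [hN1]; infer_instance
  have hle1 : N1 ≤ H.map N.subtype := by rw [hN1]; exact Subgroup.normalCore_le _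
  have hle : N1 ≤ N := hle1.trans (by rintro _ ⟨x, -, rfl⟩; exact x.2)
  -- first step
  have hQ1 : C (G ⧸ N1) := by
    have h1 : (N.map (QuotientGroup.mk' N1)).Normal :=
      Subgroup.Normal.map inferInstance _ (QuotientGroup.mk'_surjective N1)
    refine lf_ext hC (N.map (QuotientGroup.mk' N1)) ?_ (third hC hle hQ)
    subst hN1
    exact core_locFin N H hH
  -- the derived length
  choose K hKn hKf hKs using hfs
  have h2 : ∃ k : ℕ, ∀ i, derivedSeries (X i) k ≤ K i := by
    have h3 : ∀ i, ∃ k, derivedSeries (X i ⧸ K i) k = ⊥ := fun i => (hKs i).1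
    choose k hk using h3
    refine ⟨∑ i, k i, fun i => ?_⟩
    exact (derivedSeries_antitone (X i) (Finset.single_le_sum (f := k) (fun _ _ => Nat.zero_le _)
      (Finset.mem_univ i))).trans (derived_le (K i) (hk i))
  obtain ⟨k, hk⟩ := h2
  obtain ⟨L, hL⟩ : ∃ L : Subgroup G, L = (derivedSeries N1 k).map N1.subtype := ⟨_, rfl⟩
  have hLn : L.Normal := by
    rw [hL]
    have : (derivedSeries N1 k).Characteristic := inferInstance
    exact ConjAct.normal_of_characteristic_of_normal
  have hLN : L ≤ N1 := by rw [hL]; rintro _ ⟨x, -, rfl⟩; exact x.2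
  -- second step
  have hQ2 : C (G ⧸ L) := by
    have h1 : (N1.map (QuotientGroup.mk' L)).Normal :=
      Subgroup.Normal.map inferInstance _ (QuotientGroup.mk'_surjective L)
    refine sol_ext hC hS (N1.map (QuotientGroup.mk' L)) ⟨k, ?_⟩ (third hC hLN hQ1)
    let ψ : N1 →* N1.map (QuotientGroup.mk' L) :=
      ((QuotientGroup.mk' L).comp N1.subtype).codRestrict _ fun x => ⟨x, x.2, rfl⟩
    have hψ : Function.Surjective ψ := by
      rintro ⟨y, x, hx, rfl⟩
      exact ⟨⟨x, hx⟩, rfl⟩
    rw [← map_derivedSeries_eq hψ k, eq_bot_iff]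
    rintro _ ⟨x, hx, rfl⟩
    rw [Subgroup.mem_bot]
    apply Subtype.ext
    refine (QuotientGroup.eq_one_iff _).2 ?_
    rw [hL]
    exact ⟨x, hx, rfl⟩
  -- third step
  have hmem : ∀ x : N1, ∃ h : H, ((h : N) : G) = x := by
    intro x
    obtain ⟨h, hh, hx⟩ := hle1 x.2
    exact ⟨⟨h, hh⟩, hx⟩
  choose j0 hj0 using hmem
  let j : N1 →* H := MonoidHom.mk' j0 fun a b => by
    apply Subtype.ext
    apply Subtype.ext
    show ((j0 (a * b) : N) : G) = ((j0 a : N) : G) * ((j0 b : N) : G)
    rw [hj0, hj0, hj0]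
    rfl
  have hj : ∀ x : N1, ((j x : N) : G) = x := hj0
  have hmem2 : ∀ x : L, ∃ y ∈ derivedSeries N1 k, (y : G) = x := by
    intro x
    have h3 := hL.le x.2
    obtain ⟨y, hy, hyx⟩ := h3
    exact ⟨y, hy, hyx⟩
  choose l0 hl0 hl0' using hmem2
  let l : L →* N1 := MonoidHom.mk' l0 fun a b => by
    apply Subtype.ext
    show (l0 (a * b) : G) = (l0 a : G) * (l0 b : G)
    rw [hl0', hl0', hl0']
    rfl
  have hl : ∀ x : L, l x ∈ derivedSeries N1 k := hl0
  have hl' : ∀ x : L, ((l x : N1) : G) = x := hl0'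
  have hmem3 : ∀ i (x : L), f i (j (l x)) ∈ K i := by
    intro i x
    apply hk i
    have h3 : (f i).comp j (l x) ∈ (derivedSeries N1 k).map ((f i).comp j) :=
      Subgroup.mem_map_of_mem _ (hl x)
    exact map_derivedSeries_le_derivedSeries _ k h3
  let g : ∀ i, L →* FreeGroup (IsFreeGroup.Generators (K i)) := fun i =>
    (IsFreeGroup.toFreeGroup (K i)).toMonoidHom.comp
      ((((f i).comp j).comp l).codRestrict (K i) (hmem3 i))
  refine pf_ext hC hF hS (L := L) (X := fun i => IsFreeGroup.Generators (K i)) g (fun x hx => ?_) hQ2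
  have h3 : ∀ i, f i (j (l x)) = 1 := by
    intro i
    have h4 : ((((f i).comp j).comp l).codRestrict (K i) (hmem3 i)) x = 1 :=
      (map_eq_one_iff _ (IsFreeGroup.toFreeGroup (K i)).injective).1 (hx i)
    exact congrArg Subtype.val h4
  have h5 := hinj _ h3
  apply Subtype.ext
  rw [← hl' x, ← hj (l x), h5]
  rfl

end Pool.Agent.Run7.h132.FJ
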